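import Pool.Agent.X239.BK.Main

/-! MP_a60869_co, Q1: full (affirmative) answer. -/

namespace Pool.Agent.Results.MP_a60869_co.AllBooks

open Pool.Agent.X239.BK

/-- **Q1: proved.** For every `n ≥ 5` the book `B_n = K_{1,n} □ K_2` is super edge-magic if and
only if `n` is even or `n ≡ 5 (mod 8)`. -/
theorem result : ∀ n : ℕ, 5 ≤ n → (IsSuperEdgeMagic (book n) ↔ Even n ∨ n % 8 = 5) :=
  main

end Pool.Agent.Results.MP_a60869_co.AllBooks
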